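import Pool.Agent.H38.SK.WindP
import Pool.Agent.H13.SK.Regime

/-!
# The winding probability changes by a constant above the characteristic length
-/

set_option autoImplicit false

open MeasureTheory ProbabilityTheory unitInterval

namespace Pool.Agent.H83.SK.WG

open Pool.Agent.H89.Perc Pool.Agent.H83.Site Pool.Agent.H83.SK.Dict Pool.Agent.H13.SK
open Pool.Agent.H92.SN (WindS tSites)

/-- The regime of the centred lattice is the regime of the induced bond configuration. -/
theorem rswreg_of_regT {c : ℝ} {n : ℕ} {q : I} (h : RegT 4 c n q) : RSWreg c n q :=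
  rswreg_iff.2 fun m h1 h2 => by
    have := h m h1 h2
    push_cast at this
    exact this

theorem regT_of_rswreg {c : ℝ} {n : ℕ} {q : I} (h : RSWreg c n q) : RegT 4 c n q := by
  intro m h1 h2
  have := rswreg_iff.1 h m h1 h2
  push_cast
  exact this

/-- The winding probability has increased by a constant above a good scale of the open sites. -/
theorem gap_plus : ∃ δ > (0 : ℝ), ∃ c > (0 : ℝ), ∀ (p : I) (m : ℕ), 1 ≤ m →
    Good δ p false m →
    c ≤ Pool.Agent.H89.Perc.Pr p (WindS (14 * m)) -
      Pool.Agent.H89.Perc.Pr pc (WindS (14 * m)) := by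
  obtain ⟨δ, hδ, c, hc, h⟩ := wind_gap_plus
  exact ⟨δ, hδ, c, hc, fun p m hm hg => h p m (14 * m) hm (by omega) (by omega) hg⟩

/-- The winding probability has decreased by a constant above a good scale of the closed sites. -/
theorem gap_minus : ∃ δ > (0 : ℝ), ∃ c > (0 : ℝ), ∀ (p : I) (m : ℕ), 1 ≤ m →
    Good δ (σ p) true m →
    c ≤ Pool.Agent.H89.Perc.Pr pc (WindS (14 * m)) -
      Pool.Agent.H89.Perc.Pr p (WindS (14 * m)) := by
  obtain ⟨δ, hδ, c, hc, h⟩ := wind_gap_minus
  exact ⟨δ, hδ, c, hc, fun p m hm hg => h p m (14 * m) hm (by omega) (by omega) hg⟩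

end Pool.Agent.H83.SK.WG
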