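import Pool.Agent.H38.SK.WindT

/-!
# The probability of winding for site percolation on the torus
-/

set_option autoImplicit false

open MeasureTheory ProbabilityTheory unitInterval

namespace Pool.Agent.H83.SK.WG

open Pool.Agent.H89.Perc Pool.Agent.H83.Site Pool.Agent.H83.SK.Dict
open Pool.Agent.H92.SN (WindS tSites)

/-- Reduction modulo `N`. -/
def modS (N : ℕ) (v : TV) : TV := (v.1 % N, v.2.1 % N, v.2.2)

theorem mod_eq {N : ℕ} {x y a b : ℤ} (hab : b - a < N) (hx : a ≤ x ∧ x ≤ b)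
    (hy : a ≤ y ∧ y ≤ b) (h : x % N = y % N) : x = y := by
  have hd : (N : ℤ) ∣ x - y := Int.ModEq.dvd (Int.ModEq.symm h)
  have : x - y = 0 := by
    apply Int.eq_zero_of_abs_lt_dvd hd
    rw [abs_lt]
    omega
  omega

theorem modS_injOn {N : ℕ} {a b c d : ℤ} (hab : b - a < N) (hcd : d - c < N) :
    Set.InjOn (modS N) (eRect a b c d : Set Edge) := by
  rintro ⟨x, y, t⟩ h1 ⟨x', y', t'⟩ h2 h
  rw [Finset.mem_coe, mem_eRect] at h1 h2
  simp only [src, rect, Set.mem_ofPred_eq] at h1 h2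
  simp only [modS, Prod.mk.injEq] at h
  obtain ⟨h3, h4, h5⟩ := h
  rw [mod_eq hab ⟨h1.1, h1.2.1⟩ ⟨h2.1, h2.2.1⟩ h3,
    mod_eq hcd ⟨h1.2.2.1, h1.2.2.2⟩ ⟨h2.2.2.1, h2.2.2.2⟩ h4, h5]

theorem full_per (r : Bool) (N : ℕ) (ω : Config) :
    full r (per N ω) = fun v => full r ω (modS N v) := rfl

variable {q : I} {N : ℕ} {a b c d : ℤ}

/-- Local events which fit into the torus. -/
theorem raw_per (hab : b - a < N) (hcd : d - c < N) {E : Set Config}
    (hE : LocalOn (eRect a b c d) E) :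
    Pool.Agent.H89.Perc.Pr q {ω | full false (per N ω) ∈ E} = PT q false E := by
  rw [← PT_comp (p := q) (r := false) hE (φ := modS N) (modS_injOn hab hcd) (fun _ => rfl), PT]
  rfl

theorem raw_neg_per (hab : b - a < N) (hcd : d - c < N) {E : Set Config}
    (hE : LocalOn (eRect a b c d) E) :
    Pool.Agent.H89.Perc.Pr q {ω | neg (full false (per N ω)) ∈ E} = PT (σ q) true E := by
  have h1 := raw_per (q := q) hab hcd (Pool.Agent.H83.Site.LocalOn.neg hE)
  have h2 := PT_neg (p := q) (r := false) hE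
  rw [Bool.not_false] at h2
  rw [← h2, ← h1]
  rfl

/-- Local events of the induced configuration which fit into the torus. -/
theorem raw_sit_per {A : Set Config} {s : Finset Edge} (hA : LocalOn s A)
    (hs : Set.InjOn (fun e : Edge => (e.1 % (N : ℤ), e.2.1 % (N : ℤ), e.2.2)) (hull s : Set Edge)) :
    Pool.Agent.H89.Perc.Pr q {ω | sit (per N ω) ∈ A} = Pr q A := by
  rw [Pr, ← Pool.Agent.H89.Perc.Pr_comp (p := q) (localOn_sit hA) hs]
  rfl

theorem local_per {s : Finset Edge} {E : Set Config} (hE : LocalOn s E) :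
    LocalOn (s.image (modS N)) {ω | full false (per N ω) ∈ E} := by
  intro ω ω' h h'
  refine hE _ _ (fun v hv => ?_) h'
  have h1 := h _ (Finset.mem_image_of_mem _ hv)
  have h2 : per N ω v = per N ω' v := h1
  simp only [full]
  rw [h2]

theorem local_neg_per {s : Finset Edge} {E : Set Config} (hE : LocalOn s E) :
    LocalOn (s.image (modS N)) {ω | neg (full false (per N ω)) ∈ E} :=
  local_per (Pool.Agent.H83.Site.LocalOn.neg hE)

theorem incr_per {E : Set Config} (hE : Incr E) : Incr {ω | full false (per N ω) ∈ E} := by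
  intro ω ω' h h'
  exact incr_full false hE _ _ (fun e he => h _ he) h'

theorem decr_neg_per {E : Set Config} (hE : Incr E) :
    Incr {ω | neg (full false (per N ω)) ∈ E}ᶜ :=
  incr_per (Pool.Agent.H83.Site.Incr.neg_compl hE)

theorem pow4_le {x a b c d : ℝ} (hx : 0 ≤ x) (ha : x ≤ a) (hb : x ≤ b) (hc : x ≤ c)
    (hd : x ≤ d) : x ^ 4 ≤ (a * b) * (c * d) := by
  have h1 : x * x ≤ a * b := mul_le_mul ha hb hx (hx.trans ha)
  have h2 : x * x ≤ c * d := mul_le_mul hc hd hx (hx.trans hc)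
  calc x ^ 4 = (x * x) * (x * x) := by ring
    _ ≤ (a * b) * (c * d) := mul_le_mul h1 h2 (mul_nonneg hx hx) ((mul_nonneg hx hx).trans h1)

theorem fkg4 {s1 s2 s3 s4 : Finset Edge} {A B C D : Set Config}
    (lA : LocalOn s1 A) (lB : LocalOn s2 B) (lC : LocalOn s3 C) (lD : LocalOn s4 D)
    (iA : Incr A) (iB : Incr B) (iC : Incr C) (iD : Incr D) :
    (Pool.Agent.H89.Perc.Pr q A * Pool.Agent.H89.Perc.Pr q B) *
      (Pool.Agent.H89.Perc.Pr q C * Pool.Agent.H89.Perc.Pr q D) ≤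
      Pool.Agent.H89.Perc.Pr q ((A ∩ B) ∩ (C ∩ D)) := by
  classical
  have h1 := Pool.Agent.H89.Perc.fkg (p := q) lA lB iA iB
  have h2 := Pool.Agent.H89.Perc.fkg (p := q) lC lD iC iD
  have h3 := Pool.Agent.H89.Perc.fkg (p := q) (lA.inter' lB) (lC.inter' lD) (iA.inter iB)
    (iC.inter iD)
  exact (mul_le_mul h1 h2 (mul_nonneg Pool.Agent.H89.Perc.Pr_nonneg
    Pool.Agent.H89.Perc.Pr_nonneg) Pool.Agent.H89.Perc.Pr_nonneg).trans h3

theorem decr_inter {A B : Set Config} (iA : Incr Aᶜ) (iB : Incr Bᶜ) : Incr (A ∩ B)ᶜ := by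
  rw [Set.compl_inter]
  exact iA.union iB

theorem fkg4_decr {s1 s2 s3 s4 : Finset Edge} {A B C D : Set Config}
    (lA : LocalOn s1 A) (lB : LocalOn s2 B) (lC : LocalOn s3 C) (lD : LocalOn s4 D)
    (iA : Incr Aᶜ) (iB : Incr Bᶜ) (iC : Incr Cᶜ) (iD : Incr Dᶜ) :
    (Pool.Agent.H89.Perc.Pr q A * Pool.Agent.H89.Perc.Pr q B) *
      (Pool.Agent.H89.Perc.Pr q C * Pool.Agent.H89.Perc.Pr q D) ≤
      Pool.Agent.H89.Perc.Pr q ((A ∩ B) ∩ (C ∩ D)) := by
  classical
  have h1 := Pool.Agent.H89.Perc.fkg_decr (p := q) lA lB iA iB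
  have h2 := Pool.Agent.H89.Perc.fkg_decr (p := q) lC lD iC iD
  have h3 := Pool.Agent.H89.Perc.fkg_decr (p := q) (lA.inter' lB) (lC.inter' lD)
    (decr_inter iA iB) (decr_inter iC iD)
  exact (mul_le_mul h1 h2 (mul_nonneg Pool.Agent.H89.Perc.Pr_nonneg
    Pool.Agent.H89.Perc.Pr_nonneg) Pool.Agent.H89.Perc.Pr_nonneg).trans h3

/-- Union bound for four local events. -/
theorem near4 {s2 s3 s4 : Finset Edge} {A B C D : Set Config} {e : ℝ}
    (lB : LocalOn s2 B) (lC : LocalOn s3 C) (lD : LocalOn s4 D)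
    (hA : 1 - e ≤ Pool.Agent.H89.Perc.Pr q A) (hB : 1 - e ≤ Pool.Agent.H89.Perc.Pr q B)
    (hC : 1 - e ≤ Pool.Agent.H89.Perc.Pr q C) (hD : 1 - e ≤ Pool.Agent.H89.Perc.Pr q D) :
    1 - 4 * e ≤ Pool.Agent.H89.Perc.Pr q ((A ∩ B) ∩ (C ∩ D)) := by
  have key : A ⊆ (A ∩ B) ∩ (C ∩ D) ∪ (Bᶜ ∪ (Cᶜ ∪ Dᶜ)) := by
    intro ω hω
    by_cases hb : ω ∈ B
    · by_cases hc : ω ∈ C
      · by_cases hd : ω ∈ D
        · exact Or.inl ⟨⟨hω, hb⟩, hc, hd⟩
        · exact Or.inr (Or.inr (Or.inr hd))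
      · exact Or.inr (Or.inr (Or.inl hc))
    · exact Or.inr (Or.inl hb)
  have h1 := (Pool.Agent.H89.Perc.Pr_mono (p := q) key).trans
    Pool.Agent.H89.Perc.Pr_union_le
  have h2 : Pool.Agent.H89.Perc.Pr q (Bᶜ ∪ (Cᶜ ∪ Dᶜ)) ≤ _ := Pool.Agent.H89.Perc.Pr_union_le
  have h3 : Pool.Agent.H89.Perc.Pr q (Cᶜ ∪ Dᶜ) ≤ _ := Pool.Agent.H89.Perc.Pr_union_le
  rw [Pool.Agent.H89.Perc.Pr_compl lB] at h2
  rw [Pool.Agent.H89.Perc.Pr_compl lC, Pool.Agent.H89.Perc.Pr_compl lD] at h3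
  linarith

/-! ### Crossings at all places -/

theorem tcross {c : ℝ} {r : Bool} {L m : ℤ} (h : c ≤ PT q r {η | HC η 0 L 0 m})
    {x x' y y' : ℤ} (hx : x ≤ x') (hL : x' - x ≤ L) (hy : m ≤ y' - y) :
    c ≤ PT q r {η | HC η x x' y y'} := by
  rw [← PT_HC_shf q r 0 L 0 m x y] at h
  refine h.trans (PT_mono fun η hη => ?_)
  exact HC.mono hη (by omega) hx (by omega) (by omega) (by omega)

theorem tcross' {c : ℝ} {r : Bool} {L m : ℤ} (h : c ≤ PT q r {η | HC η 0 L 0 m})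
    {x x' y y' : ℤ} (hy : y ≤ y') (hL : y' - y ≤ L) (hx : m ≤ x' - x) :
    c ≤ PT q r {η | VC η x x' y y'} := by
  rw [PT_VC_eq_HC]
  exact tcross h hy hL hx

/-! ### The four crossings -/

/-- The four open crossings. -/
def four (N : ℕ) (h m : ℤ) : Set Config :=
  ({ω | full false (per N ω) ∈ {η | HC η 0 (h + m) 0 m}} ∩
    {ω | full false (per N ω) ∈ {η | HC η h (N + m) 0 m}}) ∩
  ({ω | full false (per N ω) ∈ {η | VC η h (h + m) 0 m}} ∩
    {ω | full false (per N ω) ∈ {η | VC η 0 m 0 m}})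

/-- The four closed crossings. -/
def four' (N : ℕ) (h m : ℤ) : Set Config :=
  ({ω | neg (full false (per N ω)) ∈ {η | VC η 0 m 0 (h + m)}} ∩
    {ω | neg (full false (per N ω)) ∈ {η | VC η 0 m h (N + m)}}) ∩
  ({ω | neg (full false (per N ω)) ∈ {η | HC η 0 m h (h + m)}} ∩
    {ω | neg (full false (per N ω)) ∈ {η | HC η 0 m 0 m}})

theorem four_subset {h m : ℤ} (hN : 1 ≤ N) (hm : 0 ≤ m) (hh : 0 ≤ h) (hhN : h ≤ N) :
    four N h m ⊆ WindS N := by
  rintro ω ⟨⟨h1, h2⟩, h3, h4⟩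
  have hper : ∀ v, full false (per N ω) (shf N 0 v) = full false (per N ω) v := fun v => by
    simpa using full_per_shf false N ω 1 0 v
  obtain ⟨w, hw⟩ := wind_of_crossings hper hm hh hhN h1 h2 h3 h4
  exact (windS_iff hN).2 ⟨w, 1, 0, one_ne_zero, by simpa using hw⟩

theorem four_subset' {h m : ℤ} (hN : 1 ≤ N) (hm : 0 ≤ m) (hh : 0 ≤ h) (hhN : h ≤ N) :
    four' N h m ⊆ (WindS N)ᶜ := by
  rintro ω ⟨⟨h1, h2⟩, h3, h4⟩ hω
  have hper0 : ∀ (i j : ℤ) (v : TV), full false (per N ω) (shf (i * N) (j * N) v) =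
      full false (per N ω) v := full_per_shf false N ω
  have hper : ∀ v, neg (full false (per N ω)) (shf 0 N v) = neg (full false (per N ω)) v := by
    intro v
    have := hper0 0 1 v
    simp only [zero_mul, one_mul] at this
    simp only [neg, this]
  obtain ⟨w, hw⟩ := wind_of_crossings' hper hm hh hhN h1 h2 h3 h4
  obtain ⟨u, a, b, ha, hu⟩ := (windS_iff hN).1 hω
  exact wind_excl hN hper0 ha hu w hw

section
variable {e : ℝ} {h m L : ℤ}

theorem four_lower (hN : 1 ≤ N) (he : 0 ≤ e) (hm : 0 ≤ m) (hh : 0 ≤ h) (h1 : h + m < N)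
    (h2 : m + (N - h) < N) (hL : h + m ≤ L) (hL' : m + (N - h) ≤ L)
    (H : e ≤ PT q false {η | HC η 0 L 0 m}) :
    e ^ 4 ≤ Pool.Agent.H89.Perc.Pr q (WindS N) := by
  have p1 : e ≤ Pool.Agent.H89.Perc.Pr q
      {ω | full false (per N ω) ∈ {η | HC η 0 (h + m) 0 m}} := by
    rw [raw_per (a := 0) (b := h + m) (c := 0) (d := m) (by omega) (by omega)
      (localOn_HC _ _ _ _)]
    exact tcross H (by omega) (by omega) (by omega)
  have p2 : e ≤ Pool.Agent.H89.Perc.Pr q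
      {ω | full false (per N ω) ∈ {η | HC η h (N + m) 0 m}} := by
    rw [raw_per (a := h) (b := N + m) (c := 0) (d := m) (by omega) (by omega)
      (localOn_HC _ _ _ _)]
    exact tcross H (by omega) (by omega) (by omega)
  have p3 : e ≤ Pool.Agent.H89.Perc.Pr q
      {ω | full false (per N ω) ∈ {η | VC η h (h + m) 0 m}} := by
    rw [raw_per (a := h) (b := h + m) (c := 0) (d := m) (by omega) (by omega)
      (localOn_VC _ _ _ _)]
    exact tcross' H (by omega) (by omega) (by omega)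
  have p4 : e ≤ Pool.Agent.H89.Perc.Pr q
      {ω | full false (per N ω) ∈ {η | VC η 0 m 0 m}} := by
    rw [raw_per (a := 0) (b := m) (c := 0) (d := m) (by omega) (by omega)
      (localOn_VC _ _ _ _)]
    exact tcross' H (by omega) (by omega) (by omega)
  refine (pow4_le he p1 p2 p3 p4).trans ((fkg4 (local_per (localOn_HC _ _ _ _))
    (local_per (localOn_HC _ _ _ _)) (local_per (localOn_VC _ _ _ _))
    (local_per (localOn_VC _ _ _ _)) (incr_per (incr_HC _ _ _ _)) (incr_per (incr_HC _ _ _ _))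
    (incr_per (incr_VC _ _ _ _)) (incr_per (incr_VC _ _ _ _))).trans
    (Pool.Agent.H89.Perc.Pr_mono (four_subset hN hm hh (by omega))))

theorem four_near (hN : 1 ≤ N) (hm : 0 ≤ m) (hh : 0 ≤ h) (h1 : h + m < N)
    (h2 : m + (N - h) < N) (hL : h + m ≤ L) (hL' : m + (N - h) ≤ L)
    (H : 1 - e ≤ PT q false {η | HC η 0 L 0 m}) :
    1 - 4 * e ≤ Pool.Agent.H89.Perc.Pr q (WindS N) := by
  have p1 : 1 - e ≤ Pool.Agent.H89.Perc.Pr q
      {ω | full false (per N ω) ∈ {η | HC η 0 (h + m) 0 m}} := by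
    rw [raw_per (a := 0) (b := h + m) (c := 0) (d := m) (by omega) (by omega)
      (localOn_HC _ _ _ _)]
    exact tcross H (by omega) (by omega) (by omega)
  have p2 : 1 - e ≤ Pool.Agent.H89.Perc.Pr q
      {ω | full false (per N ω) ∈ {η | HC η h (N + m) 0 m}} := by
    rw [raw_per (a := h) (b := N + m) (c := 0) (d := m) (by omega) (by omega)
      (localOn_HC _ _ _ _)]
    exact tcross H (by omega) (by omega) (by omega)
  have p3 : 1 - e ≤ Pool.Agent.H89.Perc.Pr q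
      {ω | full false (per N ω) ∈ {η | VC η h (h + m) 0 m}} := by
    rw [raw_per (a := h) (b := h + m) (c := 0) (d := m) (by omega) (by omega)
      (localOn_VC _ _ _ _)]
    exact tcross' H (by omega) (by omega) (by omega)
  have p4 : 1 - e ≤ Pool.Agent.H89.Perc.Pr q
      {ω | full false (per N ω) ∈ {η | VC η 0 m 0 m}} := by
    rw [raw_per (a := 0) (b := m) (c := 0) (d := m) (by omega) (by omega)
      (localOn_VC _ _ _ _)]
    exact tcross' H (by omega) (by omega) (by omega)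
  exact (near4 (local_per (localOn_HC _ _ _ _)) (local_per (localOn_VC _ _ _ _))
    (local_per (localOn_VC _ _ _ _)) p1 p2 p3 p4).trans
    (Pool.Agent.H89.Perc.Pr_mono (four_subset hN hm hh (by omega)))

theorem four_lower' (hN : 1 ≤ N) (he : 0 ≤ e) (hm : 0 ≤ m) (hh : 0 ≤ h) (h1 : h + m < N)
    (h2 : m + (N - h) < N) (hL : h + m ≤ L) (hL' : m + (N - h) ≤ L)
    (H : e ≤ PT (σ q) true {η | HC η 0 L 0 m}) :
    e ^ 4 ≤ 1 - Pool.Agent.H89.Perc.Pr q (WindS N) := by
  have p1 : e ≤ Pool.Agent.H89.Perc.Pr q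
      {ω | neg (full false (per N ω)) ∈ {η | VC η 0 m 0 (h + m)}} := by
    rw [raw_neg_per (a := 0) (b := m) (c := 0) (d := h + m) (by omega) (by omega)
      (localOn_VC _ _ _ _)]
    exact tcross' H (by omega) (by omega) (by omega)
  have p2 : e ≤ Pool.Agent.H89.Perc.Pr q
      {ω | neg (full false (per N ω)) ∈ {η | VC η 0 m h (N + m)}} := by
    rw [raw_neg_per (a := 0) (b := m) (c := h) (d := N + m) (by omega) (by omega)
      (localOn_VC _ _ _ _)]
    exact tcross' H (by omega) (by omega) (by omega)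
  have p3 : e ≤ Pool.Agent.H89.Perc.Pr q
      {ω | neg (full false (per N ω)) ∈ {η | HC η 0 m h (h + m)}} := by
    rw [raw_neg_per (a := 0) (b := m) (c := h) (d := h + m) (by omega) (by omega)
      (localOn_HC _ _ _ _)]
    exact tcross H (by omega) (by omega) (by omega)
  have p4 : e ≤ Pool.Agent.H89.Perc.Pr q
      {ω | neg (full false (per N ω)) ∈ {η | HC η 0 m 0 m}} := by
    rw [raw_neg_per (a := 0) (b := m) (c := 0) (d := m) (by omega) (by omega)
      (localOn_HC _ _ _ _)]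
    exact tcross H (by omega) (by omega) (by omega)
  rw [← Pool.Agent.H89.Perc.Pr_compl (localOn_windS hN)]
  refine (pow4_le he p1 p2 p3 p4).trans ((fkg4_decr (local_neg_per (localOn_VC _ _ _ _))
    (local_neg_per (localOn_VC _ _ _ _)) (local_neg_per (localOn_HC _ _ _ _))
    (local_neg_per (localOn_HC _ _ _ _)) (decr_neg_per (incr_VC _ _ _ _))
    (decr_neg_per (incr_VC _ _ _ _)) (decr_neg_per (incr_HC _ _ _ _))
    (decr_neg_per (incr_HC _ _ _ _))).trans
    (Pool.Agent.H89.Perc.Pr_mono (four_subset' hN hm hh (by omega))))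

theorem four_near' (hN : 1 ≤ N) (hm : 0 ≤ m) (hh : 0 ≤ h) (h1 : h + m < N)
    (h2 : m + (N - h) < N) (hL : h + m ≤ L) (hL' : m + (N - h) ≤ L)
    (H : 1 - e ≤ PT (σ q) true {η | HC η 0 L 0 m}) :
    Pool.Agent.H89.Perc.Pr q (WindS N) ≤ 4 * e := by
  have p1 : 1 - e ≤ Pool.Agent.H89.Perc.Pr q
      {ω | neg (full false (per N ω)) ∈ {η | VC η 0 m 0 (h + m)}} := by
    rw [raw_neg_per (a := 0) (b := m) (c := 0) (d := h + m) (by omega) (by omega)
      (localOn_VC _ _ _ _)]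
    exact tcross' H (by omega) (by omega) (by omega)
  have p2 : 1 - e ≤ Pool.Agent.H89.Perc.Pr q
      {ω | neg (full false (per N ω)) ∈ {η | VC η 0 m h (N + m)}} := by
    rw [raw_neg_per (a := 0) (b := m) (c := h) (d := N + m) (by omega) (by omega)
      (localOn_VC _ _ _ _)]
    exact tcross' H (by omega) (by omega) (by omega)
  have p3 : 1 - e ≤ Pool.Agent.H89.Perc.Pr q
      {ω | neg (full false (per N ω)) ∈ {η | HC η 0 m h (h + m)}} := by
    rw [raw_neg_per (a := 0) (b := m) (c := h) (d := h + m) (by omega) (by omega)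
      (localOn_HC _ _ _ _)]
    exact tcross H (by omega) (by omega) (by omega)
  have p4 : 1 - e ≤ Pool.Agent.H89.Perc.Pr q
      {ω | neg (full false (per N ω)) ∈ {η | HC η 0 m 0 m}} := by
    rw [raw_neg_per (a := 0) (b := m) (c := 0) (d := m) (by omega) (by omega)
      (localOn_HC _ _ _ _)]
    exact tcross H (by omega) (by omega) (by omega)
  have h3 := (near4 (local_neg_per (localOn_VC _ _ _ _)) (local_neg_per (localOn_HC _ _ _ _))
    (local_neg_per (localOn_HC _ _ _ _)) p1 p2 p3 p4).trans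
    (Pool.Agent.H89.Perc.Pr_mono (four_subset' hN hm hh (by omega)))
  rw [Pool.Agent.H89.Perc.Pr_compl (localOn_windS hN)] at h3
  linarith

end

/-! ### The box-crossing regime -/

/-- Winding has probability bounded below in the box-crossing regime. -/
theorem wind_reg_lower {c : ℝ} (hc : 0 < c) {N : ℕ} {q : I} (h : RSWreg c N q) (hN : 4 ≤ N) :
    c ^ 4 ≤ Pool.Agent.H89.Perc.Pr q (WindS N) := by
  obtain ⟨m, hm⟩ : ∃ m : ℕ, N / 2 = m + 1 := ⟨N / 2 - 1, by omega⟩
  have H := ((rswreg_iff.1 h) m (by omega) (by omega)).1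
  exact four_lower (by omega) hc.le (h := m + 1) (by omega) (by omega) (by omega) (by omega)
    (by omega) (by omega) H

/-- Not winding has probability bounded below in the box-crossing regime. -/
theorem wind_reg_upper {c : ℝ} (hc : 0 < c) {N : ℕ} {q : I} (h : RSWreg c N q) (hN : 4 ≤ N) :
    c ^ 4 ≤ 1 - Pool.Agent.H89.Perc.Pr q (WindS N) := by
  obtain ⟨m, hm⟩ : ∃ m : ℕ, N / 2 = m + 1 := ⟨N / 2 - 1, by omega⟩
  have H := ((rswreg_iff.1 h) m (by omega) (by omega)).2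
  exact four_lower' (by omega) hc.le (h := m + 1) (by omega) (by omega) (by omega) (by omega)
    (by omega) (by omega) H

/-! ### Good scales -/

/-- Winding is likely above a good scale of the open sites. -/
theorem wind_near : ∀ η > (0 : ℝ), ∃ δ > (0 : ℝ), ∀ (p : I) (m N : ℕ), 1 ≤ m → 10 * m ≤ N →
    N ≤ 40 * m → 1 - δ ≤ PT p false {η | HC η 0 (4 * m) 0 (4 * m)} →
    1 - η ≤ Pool.Agent.H89.Perc.Pr p (WindS N) := by
  intro η hη
  refine ⟨(η / 400) ^ 2, by positivity, fun p m N hm h1 h2 h => ?_⟩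
  have h3 := near_rsw p false (l := 2 * m) (by omega) (δ := (η / 400) ^ 2) (by positivity)
    (by push_cast; ring_nf at h ⊢; exact h)
  rw [Real.sqrt_sq (by positivity)] at h3
  obtain ⟨k, hk⟩ : ∃ k : ℕ, k = N / 2 := ⟨_, rfl⟩
  have h4 := four_near (q := p) (N := N) (e := 100 * (η / 400)) (h := k)
    (m := 2 * ((2 * m : ℕ) : ℤ)) (L := 12 * ((2 * m : ℕ) : ℤ)) (by omega) (by omega) (by omega)
    (by push_cast; omega) (by push_cast; omega) (by push_cast; omega) (by push_cast; omega) h3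
  linarith

/-- Winding is unlikely above a good scale of the closed sites. -/
theorem wind_near' : ∀ η > (0 : ℝ), ∃ δ > (0 : ℝ), ∀ (p : I) (m N : ℕ), 1 ≤ m → 10 * m ≤ N →
    N ≤ 40 * m → 1 - δ ≤ PT (σ p) true {η | HC η 0 (4 * m) 0 (4 * m)} →
    Pool.Agent.H89.Perc.Pr p (WindS N) ≤ η := by
  intro η hη
  refine ⟨(η / 400) ^ 2, by positivity, fun p m N hm h1 h2 h => ?_⟩
  have h3 := near_rsw (σ p) true (l := 2 * m) (by omega) (δ := (η / 400) ^ 2) (by positivity)
    (by push_cast; ring_nf at h ⊢; exact h)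
  rw [Real.sqrt_sq (by positivity)] at h3
  obtain ⟨k, hk⟩ : ∃ k : ℕ, k = N / 2 := ⟨_, rfl⟩
  have h4 := four_near' (q := p) (N := N) (e := 100 * (η / 400)) (h := k)
    (m := 2 * ((2 * m : ℕ) : ℤ)) (L := 12 * ((2 * m : ℕ) : ℤ)) (by omega) (by omega) (by omega)
    (by push_cast; omega) (by push_cast; omega) (by push_cast; omega) (by push_cast; omega) h3
  linarith

/-- The winding probability has increased by a constant above a good scale of the open sites. -/
theorem wind_gap_plus : ∃ δ > (0 : ℝ), ∃ c > (0 : ℝ), ∀ (p : I) (m N : ℕ), 1 ≤ m →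
    10 * m ≤ N → N ≤ 40 * m → 1 - δ ≤ PT p false {η | HC η 0 (4 * m) 0 (4 * m)} →
    c ≤ Pool.Agent.H89.Perc.Pr p (WindS N) - Pool.Agent.H89.Perc.Pr pc (WindS N) := by
  obtain ⟨c, hc, hreg⟩ := rswreg_pc
  obtain ⟨δ, hδ, h1⟩ := wind_near (c ^ 4 / 2) (by positivity)
  refine ⟨δ, hδ, c ^ 4 / 2, by positivity, fun p m N hm h2 h3 h => ?_⟩
  have h4 := h1 p m N hm h2 h3 h
  have h5 := wind_reg_upper hc (hreg N) (by omega)
  linarith

/-- The winding probability has decreased by a constant above a good scale of the closed sites. -/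
theorem wind_gap_minus : ∃ δ > (0 : ℝ), ∃ c > (0 : ℝ), ∀ (p : I) (m N : ℕ), 1 ≤ m →
    10 * m ≤ N → N ≤ 40 * m → 1 - δ ≤ PT (σ p) true {η | HC η 0 (4 * m) 0 (4 * m)} →
    c ≤ Pool.Agent.H89.Perc.Pr pc (WindS N) - Pool.Agent.H89.Perc.Pr p (WindS N) := by
  obtain ⟨c, hc, hreg⟩ := rswreg_pc
  obtain ⟨δ, hδ, h1⟩ := wind_near' (c ^ 4 / 2) (by positivity)
  refine ⟨δ, hδ, c ^ 4 / 2, by positivity, fun p m N hm h2 h3 h => ?_⟩
  have h4 := h1 p m N hm h2 h3 h
  have h5 := wind_reg_lower hc (hreg N) (by omega)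
  linarith

end Pool.Agent.H83.SK.WG
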