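import Pool.Agent.H38.SK.Conv
import Pool.Agent.H83.SK.PST.Holds

/-!
# Gluing on the torus and quasi-multiplicativity in the second form
-/

set_option autoImplicit false

namespace Pool.Agent.H38.SKConv

theorem glTorusN : Pool.Agent.H92.SN.GLTorus := glTorus_conv Pool.Agent.H83.SK.glTorus_holds

theorem qMannN : Pool.Agent.H92.SN.QMann := qmann_conv Pool.Agent.H83.SK.qMann_holds

end Pool.Agent.H38.SKConv
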