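import Pool.Agent.H92.SN.A4B
import Pool.Agent.H92.SN.TSym
import Pool.Agent.H83.SK.Iface
import Pool.Agent.H83.SK.PST.Piv
import Pool.Agent.H59.EX.Sym

/-!
# The two forms of the four-arm probability of a site

`SK.a4` sums over two kinds of pairs of neighbours of the origin, `SN.a4` is the probability of the
union over all pairs.
-/

set_option autoImplicit false

open MeasureTheory ProbabilityTheory unitInterval

namespace Pool.Agent.H38.SKConv

open Pool.Agent.H89.Perc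
open Pool.Agent.H59.EX (Gen closeS Four)
open Pool.Agent.H83.SK (s4 star0 IsAut isAut_swap isAut_reflX isAut_reflY sitT blkS)
open Pool.Agent.H92.SN (closeV A4 Nb WindS)
open Pool.Agent.H61.NC (fill blk mid)

variable {q : I} {r : ℕ}

theorem mem_star0 (e : Edge) : e ∈ star0 ↔ src e = 0 ∨ tgt e = 0 := by
  obtain ⟨x, y, t⟩ := e
  cases t
  · simp only [star0, Finset.mem_insert, Finset.mem_singleton, Prod.mk.injEq, src, tgt,
      Bool.false_eq_true, if_false, and_false, and_true, or_false, false_or]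
    constructor
    · rintro (⟨rfl, rfl⟩ | ⟨rfl, rfl⟩)
      · left; rfl
      · right; rfl
    · rintro (h | h)
      · have h1 := congrArg Prod.fst h
        have h2 := congrArg Prod.snd h
        simp only [Prod.fst_zero, Prod.snd_zero] at h1 h2
        left; exact ⟨h1, h2⟩
      · have h1 := congrArg Prod.fst h
        have h2 := congrArg Prod.snd h
        simp only [Prod.fst_zero, Prod.snd_zero] at h1 h2
        right; exact ⟨by omega, h2⟩
  · simp only [star0, Finset.mem_insert, Finset.mem_singleton, Prod.mk.injEq, src, tgt,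
      if_true, and_false, and_true, false_or, reduceCtorEq]
    constructor
    · rintro (⟨rfl, rfl⟩ | ⟨rfl, rfl⟩)
      · left; rfl
      · right; rfl
    · rintro (h | h)
      · have h1 := congrArg Prod.fst h
        have h2 := congrArg Prod.snd h
        simp only [Prod.fst_zero, Prod.snd_zero] at h1 h2
        left; exact ⟨h1, h2⟩
      · have h1 := congrArg Prod.fst h
        have h2 := congrArg Prod.snd h
        simp only [Prod.fst_zero, Prod.snd_zero] at h1 h2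
        right; exact ⟨h1, by omega⟩

theorem cut_eq (b : Bool) (ω : Config) : (s4 b).cut ω = closeV 0 ω := by
  funext e
  have h := mem_star0 e
  have h0 : (s4 b).E0 = star0 := rfl
  rw [Bool.eq_iff_iff]
  unfold Pool.Agent.H59.EX.Src.cut closeS closeV
  rw [h0]
  simp only [Finset.mem_coe, Bool.and_eq_true, decide_eq_true_eq]
  rw [h, not_or]

/-- Two given neighbours of the origin are joined to distance `r` and not to each other. -/
def F (a b : Vert) (r : ℕ) : Set Config :=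
  {ω | (∃ u ∈ sphere 0 r, Conn (closeV 0 ω) (ball 0 r) a u) ∧
    (∃ u ∈ sphere 0 r, Conn (closeV 0 ω) (ball 0 r) b u) ∧ ¬ Conn (closeV 0 ω) (ball 0 r) a b}

theorem four_eq (b : Bool) : Four (s4 b) r = F (1, 0) (if b then (0, 1) else (-1, 0)) r := by
  ext ω
  unfold Four F
  rw [Set.mem_ofPred_eq, Set.mem_ofPred_eq, cut_eq]
  rfl

theorem F_comm (a b : Vert) : F a b r = F b a r := by
  ext ω
  constructor
  · rintro ⟨h1, h2, h3⟩
    exact ⟨h2, h1, fun h => h3 h.symm⟩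
  · rintro ⟨h1, h2, h3⟩
    exact ⟨h2, h1, fun h => h3 h.symm⟩

private theorem conv_joins (g : Gen) (e : Edge) (a b : Vert) (h : Joins e a b) :
    Joins (g.e e) (g.v a) (g.v b) := by
  cases g
  · exact joins_swap e a b h
  · have := joins_reflX 0 e a b h
    rw [zero_sub, zero_sub] at this
    exact this
  · have := joins_reflY 0 e a b h
    rw [zero_sub, zero_sub] at this
    exact this

private theorem conv_ends (g : Gen) (e : Edge) :
    (src (g.e e) = g.v (src e) ∧ tgt (g.e e) = g.v (tgt e)) ∨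
      (src (g.e e) = g.v (tgt e) ∧ tgt (g.e e) = g.v (src e)) := by
  rcases conv_joins g e _ _ (joins_src_tgt e) with ⟨h1, h2⟩ | ⟨h1, h2⟩
  · exact Or.inl ⟨h1.symm, h2.symm⟩
  · exact Or.inr ⟨h2.symm, h1.symm⟩

private theorem conv_aut (g : Gen) : IsAut g.e := by
  cases g
  · exact isAut_swap
  · exact isAut_reflX 0
  · exact isAut_reflY 0

private theorem v_zero (g : Gen) (a : Vert) : g.v a = 0 ↔ a = 0 := by
  have h0 : g.v 0 = 0 := by cases g <;> simp [Gen.v]
  constructor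
  · intro h
    have := congrArg g.v h
    rwa [g.v_v, h0] at this
  · rintro rfl
    exact h0

private theorem closeV_comp (g : Gen) (ω : Config) :
    closeV 0 (fun e => ω (g.e e)) = fun e => closeV 0 ω (g.e e) := by
  funext e
  rw [Bool.eq_iff_iff]
  unfold closeV
  simp only [Bool.and_eq_true, decide_eq_true_eq, ne_eq]
  rcases conv_ends g e with ⟨h1, h2⟩ | ⟨h1, h2⟩
  · rw [h1, h2, v_zero, v_zero]
  · rw [h1, h2, v_zero, v_zero]
    tauto

private theorem conv_sphere (g : Gen) (r : ℕ) (a : Vert) : g.v a ∈ sphere 0 r ↔ a ∈ sphere 0 r := by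
  have h := g.mem_ball r a
  unfold sphere
  simp only [Set.mem_ofPred_eq]
  rw [h]
  cases g <;> simp only [Gen.v, Prod.fst_zero, Prod.snd_zero] <;>
    constructor <;> rintro ⟨h1, h2⟩ <;> refine ⟨h1, ?_⟩ <;>
    rcases abs_cases (a.1 - 0) with h3 | h3 <;> rcases abs_cases (a.2 - 0) with h4 | h4 <;>
    (try rcases abs_cases (-a.1 - 0) with h5 | h5) <;>
    (try rcases abs_cases (-a.2 - 0) with h6 | h6) <;> omega

private theorem conv_conn (g : Gen) (ω : Config) (u v : Vert) :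
    Conn (closeV 0 (fun e => ω (g.e e))) (ball 0 r) u v ↔
      Conn (closeV 0 ω) (ball 0 r) (g.v u) (g.v v) := by
  rw [closeV_comp]
  have h := conn_invol (ω := closeV 0 ω) g.e_e g.v_v (conv_joins g) (ball 0 r) u v
  have h2 : {w | g.v w ∈ ball 0 r} = ball 0 r := by
    ext w
    exact g.mem_ball r w
  rw [h2] at h
  exact h

private theorem F_comp (g : Gen) (a b : Vert) :
    {ω : Config | (fun e => ω (g.e e)) ∈ F a b r} = F (g.v a) (g.v b) r := by
  ext ω
  simp only [F, Set.mem_ofPred_eq, conv_conn]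
  have key : ∀ c : Vert, (∃ u ∈ sphere 0 r, Conn (closeV 0 ω) (ball 0 r) (g.v c) (g.v u)) ↔
      ∃ u ∈ sphere 0 r, Conn (closeV 0 ω) (ball 0 r) (g.v c) u := by
    intro c
    constructor
    · rintro ⟨u, hu, h⟩
      exact ⟨g.v u, (conv_sphere g r u).2 hu, h⟩
    · rintro ⟨u, hu, h⟩
      refine ⟨g.v u, (conv_sphere g r u).2 hu, ?_⟩
      rwa [g.v_v]
  rw [key, key]

theorem localOn_F (a b : Vert) (r : ℕ) :
    LocalOn (eRect (-(r : ℤ)) r (-(r : ℤ)) r) (F a b r) := by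
  have key : ∀ ω ω' : Config, (∀ e ∈ eRect (-(r : ℤ)) r (-(r : ℤ)) r, ω e = ω' e) → ∀ x y,
      Conn (closeV 0 ω) (ball 0 r) x y → Conn (closeV 0 ω') (ball 0 r) x y := by
    intro ω ω' h x y hc
    refine hc.congr fun e h1 _ => ?_
    unfold closeV
    rw [h e]
    rw [mem_eRect]
    rw [Pool.Agent.H89.Perc.mem_ball] at h1
    simp only [Prod.fst_zero, Prod.snd_zero] at h1
    simp only [rect, Set.mem_ofPred_eq]
    omega
  rintro ω ω' h ⟨⟨u, hu, h1⟩, ⟨u', hu', h2⟩, h3⟩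
  exact ⟨⟨u, hu, key _ _ h _ _ h1⟩, ⟨u', hu', key _ _ h _ _ h2⟩,
    fun h4 => h3 (key _ _ (fun e he => (h e he).symm) _ _ h4)⟩

theorem Pr_F_map (g : Gen) (a b : Vert) :
    Pool.Agent.H83.SK.Pr q (F (g.v a) (g.v b) r) = Pool.Agent.H83.SK.Pr q (F a b r) := by
  rw [← F_comp, Pool.Agent.H83.SK.Pr_comp (localOn_F a b r) (conv_aut g)]

private theorem pr_WE : Pool.Agent.H83.SK.Pr q (F (0, 1) (0, -1) r) =
    Pool.Agent.H83.SK.Pr q (F (1, 0) (-1, 0) r) := Pr_F_map .sw (1, 0) (-1, 0)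

private theorem pr_WN : Pool.Agent.H83.SK.Pr q (F (-1, 0) (0, 1) r) =
    Pool.Agent.H83.SK.Pr q (F (1, 0) (0, 1) r) := by
  have h := Pr_F_map (q := q) (r := r) .rx (1, 0) (0, 1)
  simpa [Gen.v] using h

private theorem pr_ES : Pool.Agent.H83.SK.Pr q (F (1, 0) (0, -1) r) =
    Pool.Agent.H83.SK.Pr q (F (1, 0) (0, 1) r) := by
  have h := Pr_F_map (q := q) (r := r) .ry (1, 0) (0, 1)
  simpa [Gen.v] using h

private theorem pr_WS : Pool.Agent.H83.SK.Pr q (F (-1, 0) (0, -1) r) =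
    Pool.Agent.H83.SK.Pr q (F (1, 0) (0, 1) r) := by
  have h := Pr_F_map (q := q) (r := r) .ry (-1, 0) (0, 1)
  rw [pr_WN] at h
  simpa [Gen.v] using h

theorem a4_le_two (q : I) (r : ℕ) :
    Pool.Agent.H83.SK.a4 q r ≤ 2 * Pool.Agent.H92.SN.a4 q r := by
  have key : ∀ b : Bool, Pool.Agent.H83.SK.Pr q (Four (s4 b) r) ≤ Pool.Agent.H92.SN.a4 q r := by
    intro b
    refine Pool.Agent.H83.SK.Pr_mono ?_
    rw [four_eq]
    rintro ω ⟨h1, h2, h3⟩
    have n1 : Nb 0 (1, 0) := ⟨(0, 0, false), Or.inl ⟨rfl, rfl⟩⟩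
    have n2 : Nb 0 (if b then (0, 1) else (-1, 0)) := by
      cases b
      · exact ⟨(-1, 0, false), Or.inr ⟨rfl, rfl⟩⟩
      · exact ⟨(0, 0, true), Or.inl ⟨rfl, rfl⟩⟩
    exact ⟨_, _, n1, n2, h1, h2, h3⟩
  have h1 := key false
  have h2 := key true
  unfold Pool.Agent.H83.SK.a4
  linarith

theorem a4_le_four (q : I) (r : ℕ) :
    Pool.Agent.H92.SN.a4 q r ≤ 4 * Pool.Agent.H83.SK.a4 q r := by
  have hsub : A4 0 r ⊆ (F (1, 0) (-1, 0) r ∪ F (0, 1) (0, -1) r) ∪
      ((F (1, 0) (0, 1) r ∪ F (-1, 0) (0, 1) r) ∪ (F (1, 0) (0, -1) r ∪ F (-1, 0) (0, -1) r)) := by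
    rintro ω ⟨a, b, ha, hb, h1, h2, h3⟩
    have hm : ω ∈ F a b r := ⟨h1, h2, h3⟩
    have hm' : ω ∈ F b a r := by rw [F_comm]; exact hm
    have hne : a ≠ b := by
      rintro rfl
      obtain ⟨u, _, hu⟩ := h1
      exact h3 (Conn.refl hu.mem_left)
    have hz : ∀ c : Vert, Nb 0 c → c = (1, 0) ∨ c = (0, 1) ∨ c = (-1, 0) ∨ c = (0, -1) := by
      intro c hc
      rcases hc.cases with h | h | h | h
      · left; rw [h]; rfl
      · right; left; rw [h]; rfl
      · right; right; left; rw [h]; rfl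
      · right; right; right; rw [h]; rfl
    simp only [Set.mem_union]
    rcases hz a ha with rfl | rfl | rfl | rfl <;> rcases hz b hb with rfl | rfl | rfl | rfl <;>
      first | exact absurd rfl hne | tauto
  have h1 : Pool.Agent.H92.SN.a4 q r ≤
      (Pool.Agent.H83.SK.Pr q (F (1, 0) (-1, 0) r) + Pool.Agent.H83.SK.Pr q (F (0, 1) (0, -1) r)) +
      ((Pool.Agent.H83.SK.Pr q (F (1, 0) (0, 1) r) + Pool.Agent.H83.SK.Pr q (F (-1, 0) (0, 1) r)) +
      (Pool.Agent.H83.SK.Pr q (F (1, 0) (0, -1) r) +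
        Pool.Agent.H83.SK.Pr q (F (-1, 0) (0, -1) r))) := by
    refine (Pool.Agent.H83.SK.Pr_mono hsub).trans ?_
    refine Pool.Agent.H83.SK.Pr_union_le.trans (add_le_add Pool.Agent.H83.SK.Pr_union_le ?_)
    exact Pool.Agent.H83.SK.Pr_union_le.trans
      (add_le_add Pool.Agent.H83.SK.Pr_union_le Pool.Agent.H83.SK.Pr_union_le)
  rw [pr_WE, pr_WN, pr_ES, pr_WS] at h1
  have h2 : Pool.Agent.H83.SK.a4 q r = Pool.Agent.H83.SK.Pr q (F (1, 0) (-1, 0) r) +
      Pool.Agent.H83.SK.Pr q (F (1, 0) (0, 1) r) := by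
    unfold Pool.Agent.H83.SK.a4
    rw [four_eq, four_eq]
    rfl
  have h3 : 0 ≤ Pool.Agent.H83.SK.Pr q (F (1, 0) (-1, 0) r) := Pool.Agent.H83.SK.Pr_nonneg
  rw [h2]
  linarith

theorem blkS_eq (N r : ℕ) : blkS N r = Pool.Agent.H92.SN.blkS N r := by
  ext ⟨x, y, t⟩
  unfold blkS Pool.Agent.H92.SN.blkS blk eRect
  simp only [Finset.mem_filter, Finset.mem_product, Finset.mem_Icc, Finset.mem_univ, and_true,
    Finset.mem_singleton]
  tauto

theorem blockPiv_eq (N r : ℕ) : Pool.Agent.H83.SK.BlockPiv N r = Pool.Agent.H92.SN.BlockPiv N r := by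
  ext w
  have h : ∀ w' : Config, sitT N w' ∈ Wind N ↔ w' ∈ WindS N := by
    intro w'
    rw [← Pool.Agent.H83.PST.windS_eq]
    rfl
  unfold Pool.Agent.H83.SK.BlockPiv Pool.Agent.H92.SN.BlockPiv
  simp only [Set.mem_ofPred_eq]
  rw [h, h, blkS_eq]

theorem glTorus_conv (h : Pool.Agent.H83.SK.GLTorus) : Pool.Agent.H92.SN.GLTorus := by
  intro c hc
  obtain ⟨C, hC, h1⟩ := h c hc
  refine ⟨4 * C, by positivity, fun N r q hr hN hq => ?_⟩
  have h2 := h1 N r q hr hN hq
  rw [blockPiv_eq, Pool.Agent.H83.PST.sT_eq] at h2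
  have h3 := a4_le_four q r
  have h4 : 0 ≤ Pool.Agent.H89.Perc.Pr q (Pool.Agent.H92.SN.BlockPiv N (16 * r)) :=
    Pool.Agent.H89.Perc.Pr_nonneg
  have h5 := mul_le_mul_of_nonneg_right h3 h4
  have h6 : 4 * Pool.Agent.H83.SK.a4 q r *
      Pool.Agent.H89.Perc.Pr q (Pool.Agent.H92.SN.BlockPiv N (16 * r)) =
      4 * (Pool.Agent.H83.SK.a4 q r *
        Pool.Agent.H89.Perc.Pr q (Pool.Agent.H92.SN.BlockPiv N (16 * r))) := by ring
  rw [h6] at h5
  refine h5.trans ?_
  linarith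

theorem qmann_conv (h : Pool.Agent.H83.SK.QMann) : Pool.Agent.H92.SN.QMann := by
  intro c hc
  obtain ⟨C, hC, h1⟩ := h c hc
  refine ⟨8 * C, by positivity, fun n r R q hr hR hn hq => ?_⟩
  have h2 := h1 n r R q hr hR hn hq
  have h3 := a4_le_four q r
  have h4 : 0 ≤ Pool.Agent.H83.SK.Pr q (Pool.Agent.H29.Sep.A2 (16 * r) R) :=
    Pool.Agent.H83.SK.Pr_nonneg
  have h5 := mul_le_mul_of_nonneg_right h3 h4
  have h7 := a4_le_two q R
  have h8 := mul_le_mul_of_nonneg_left h7 hC.le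
  have h6 : 4 * Pool.Agent.H83.SK.a4 q r * Pool.Agent.H83.SK.Pr q (Pool.Agent.H29.Sep.A2 (16 * r) R)
      = 4 * (Pool.Agent.H83.SK.a4 q r *
        Pool.Agent.H83.SK.Pr q (Pool.Agent.H29.Sep.A2 (16 * r) R)) := by ring
  rw [h6] at h5
  refine h5.trans ?_
  linarith

end Pool.Agent.H38.SKConv
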