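import Pool.Agent.H83.SK.Base
import Pool.Agent.H83.Site.Crit

/-!
# Dictionary between the centred lattice and the induced bond configuration
-/

set_option autoImplicit false

open MeasureTheory ProbabilityTheory unitInterval

namespace Pool.Agent.H83.SK.Dict

open Pool.Agent.H89.Perc Pool.Agent.H83.Site

variable {ω : Config} {S : Set Vert} {T : Set TV} {a b c d : ℤ} {p q : I}

theorem sv_mem_TR {v : Vert} : sv v ∈ TR a b c d ↔ v ∈ rect a b c d := by
  obtain ⟨x, y⟩ := v
  simp only [sv, mem_TR_site, rect, Set.mem_ofPred_eq]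

theorem full_sv (r : Bool) (ω : Config) (v : Vert) : full r ω (sv v) = ω (sv v) := rfl

/-- The end points of an edge are adjacent in the centred lattice. -/
theorem tadj_of_joins {e : Edge} {u v : Vert} (h : Joins e u v) : TAdj (sv u) (sv v) := by
  obtain ⟨x, y, t⟩ := e
  left
  refine ⟨rfl, rfl, ?_⟩
  cases t <;> rcases h with ⟨h1, h2⟩ | ⟨h1, h2⟩ <;> subst h1 <;> subst h2 <;>
    simp [sv, src, tgt]

/-- Adjacent sites are joined by an edge. -/
theorem joins_of_tadj {u v : Vert} (h : TAdj (sv u) (sv v)) : ∃ e, Joins e u v := by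
  obtain ⟨x, y⟩ := u
  obtain ⟨x', y'⟩ := v
  simp only [TAdj, sv, true_and, Bool.false_eq_true, false_and, and_false, or_false] at h
  rcases h with ⟨h1, h2⟩ | ⟨h1, h2⟩
  · rcases h2 with h2 | h2
    · exact ⟨(x', y', true), Or.inr ⟨by simp [tgt, h1, h2], rfl⟩⟩
    · exact ⟨(x, y, true), Or.inl ⟨rfl, by simp [tgt, h1, h2]⟩⟩
  · rcases h2 with h2 | h2
    · exact ⟨(x', y', false), Or.inr ⟨by simp [tgt, h1, h2], rfl⟩⟩
    · exact ⟨(x, y, false), Or.inl ⟨rfl, by simp [tgt, h1, h2]⟩⟩

theorem sit_joins {e : Edge} {u v : Vert} (h : Joins e u v) :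
    sit ω e = true ↔ ω (sv u) = true ∧ ω (sv v) = true := by
  rw [sit_true]
  rcases h with ⟨h1, h2⟩ | ⟨h1, h2⟩ <;> rw [h1, h2]
  exact and_comm

/-- A step of the induced configuration is a step of the centred lattice. -/
theorem tstep_of_step (hST : ∀ v ∈ S, sv v ∈ T) {u v : Vert} (h : Step (sit ω) S u v)
    (r : Bool) : TStep (full r ω) T (sv u) (sv v) := by
  obtain ⟨h1, h2, e, he, ho⟩ := h
  have h3 := (sit_joins he).1 ho
  exact ⟨hST _ h1, hST _ h2, tadj_of_joins he, by rw [full_sv]; exact h3.1,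
    by rw [full_sv]; exact h3.2⟩

theorem tconn_of_conn (hST : ∀ v ∈ S, sv v ∈ T) {u v : Vert} (h : Conn (sit ω) S u v)
    (hu : ω (sv u) = true) (r : Bool) : TConn (full r ω) T (sv u) (sv v) := by
  refine h.induction_right (P := fun v => TConn (full r ω) T (sv u) (sv v))
    (TConn.refl (hST _ h.mem_left) (by rw [full_sv]; exact hu)) ?_
  intro a b _ hab ih
  exact ih.tail (tstep_of_step hST hab r)

/-- An open path of the square lattice starting and ending at different vertices starts in an open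
site. -/
theorem open_of_conn {u v : Vert} (h : Conn (sit ω) S u v) (huv : u ≠ v) :
    ω (sv u) = true := by
  obtain ⟨h1, h2⟩ := h
  rcases Relation.ReflTransGen.cases_head h2 with h3 | ⟨w, h3, -⟩
  · exact absurd h3 huv
  · obtain ⟨-, -, e, he, ho⟩ := h3
    exact ((sit_joins he).1 ho).1

theorem open_of_conn' {u v : Vert} (h : Conn (sit ω) S u v) (hu : ω (sv u) = true) :
    ω (sv v) = true := by
  by_cases huv : u = v
  · rw [← huv]; exact hu
  · exact open_of_conn h.symm (Ne.symm huv)

/-- Open paths of the centred lattice with closed centres are open paths of sites. -/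
theorem conn_of_tconn (hTS : ∀ v, sv v ∈ T → v ∈ S) {u : Vert} {w : TV}
    (h : TConn (full false ω) T (sv u) w) :
    w = sv (w.1, w.2.1) ∧ Conn (sit ω) S u (w.1, w.2.1) := by
  have key : ∀ w : TV, full false ω w = true → w = sv (w.1, w.2.1) := by
    rintro ⟨x, y, t⟩ hw
    cases t
    · rfl
    · simp [full] at hw
  refine ⟨key w h.open_right, ?_⟩
  refine h.induction_right (P := fun w => Conn (sit ω) S u (w.1, w.2.1))
    (Conn.refl (hTS _ h.mem_left)) ?_
  intro a b _ hab ih
  obtain ⟨h1, h2, h3, h4, h5⟩ := hab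
  have ha := key a h4
  have hb := key b h5
  rw [ha] at h1 h4
  rw [hb] at h2 h5
  rw [ha, hb] at h3
  obtain ⟨e, he⟩ := joins_of_tadj h3
  exact ih.tail ⟨hTS _ h1, hTS _ h2, e, he, (sit_joins he).2 ⟨h4, h5⟩⟩

/-! ### Crossings -/

theorem hcross_iff (hab : a < b) : HCross (sit ω) a b c d ↔ HC (full false ω) a b c d := by
  constructor
  · rintro ⟨u, v, hu, hv, h⟩
    have huv : u ≠ v := by rintro rfl; omega
    have h1 := tconn_of_conn (T := TR a b c d) (fun v hv => sv_mem_TR.2 hv) h
      (open_of_conn h huv) false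
    refine ⟨u.2, v.2, ?_⟩
    have e1 : sv u = (a, u.2, false) := by rw [← hu]; rfl
    have e2 : sv v = (b, v.2, false) := by rw [← hv]; rfl
    rwa [e1, e2] at h1
  · rintro ⟨y, y', h⟩
    have h1 := conn_of_tconn (S := rect a b c d) (u := (a, y)) (fun v hv => sv_mem_TR.1 hv) h
    exact ⟨(a, y), (b, y'), rfl, rfl, h1.2⟩

theorem vcross_iff (hcd : c < d) : VCross (sit ω) a b c d ↔ VC (full false ω) a b c d := by
  constructor
  · rintro ⟨u, v, hu, hv, h⟩
    have huv : u ≠ v := by rintro rfl; omega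
    have h1 := tconn_of_conn (T := TR a b c d) (fun v hv => sv_mem_TR.2 hv) h
      (open_of_conn h huv) false
    refine ⟨u.1, v.1, ?_⟩
    have e1 : sv u = (u.1, c, false) := by rw [← hu]; rfl
    have e2 : sv v = (v.1, d, false) := by rw [← hv]; rfl
    rwa [e1, e2] at h1
  · rintro ⟨x, x', h⟩
    have h1 := conn_of_tconn (S := rect a b c d) (u := (x, c)) (fun v hv => sv_mem_TR.1 hv) h
    exact ⟨(x, c), (x', d), rfl, rfl, h1.2⟩

/-- There is no open horizontal crossing if and only if there is a closed vertical one. -/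
theorem not_hc_iff (hab : a ≤ b) (hcd : c ≤ d) (η : Config) :
    ¬ HC η a b c d ↔ VC (neg η) a b c d :=
  ⟨fun h => (hc_or_vc hab hcd η).resolve_left h, fun h h' => not_hc_and_vc h' h⟩

/-- There is no open vertical crossing if and only if there is a closed horizontal one. -/
theorem not_vc_iff (hab : a ≤ b) (hcd : c ≤ d) (η : Config) :
    ¬ VC η a b c d ↔ HC (neg η) a b c d := by
  constructor
  · intro h
    rcases hc_or_vc hab hcd (neg η) with h1 | h1
    · exact h1
    · rw [neg_neg'] at h1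
      exact absurd h1 h
  · intro h h'
    have := not_hc_and_vc h
    rw [neg_neg'] at this
    exact this h'

theorem not_hcross_iff (hab : a < b) (hcd : c ≤ d) :
    ¬ HCross (sit ω) a b c d ↔ VC (full true (neg ω)) a b c d := by
  rw [hcross_iff hab, not_hc_iff hab.le hcd, neg_full]
  rfl

theorem not_vcross_iff (hab : a ≤ b) (hcd : c < d) :
    ¬ VCross (sit ω) a b c d ↔ HC (full true (neg ω)) a b c d := by
  rw [vcross_iff hcd, not_vc_iff hab hcd.le, neg_full]
  rfl

/-! ### Probabilities -/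

theorem Pr_hcross (hab : a < b) :
    Pr p {ω | HCross ω a b c d} = PT p false {η | HC η a b c d} := by
  have e : {ω : Config | sit ω ∈ {ω | HCross ω a b c d}} =
      {ω | full false ω ∈ {η | HC η a b c d}} := by
    ext ω
    exact hcross_iff hab
  rw [Pr, PT, e]

theorem Pr_vcross (hcd : c < d) :
    Pr p {ω | VCross ω a b c d} = PT p false {η | VC η a b c d} := by
  have e : {ω : Config | sit ω ∈ {ω | VCross ω a b c d}} =
      {ω | full false ω ∈ {η | VC η a b c d}} := by
    ext ω
    exact vcross_iff hcd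
  rw [Pr, PT, e]

/-- The law of the configuration with open and closed exchanged. -/
theorem raw_neg {s : Finset Edge} {E : Set Config} (h : LocalOn s E) (r : Bool) :
    Pool.Agent.H89.Perc.Pr p {ω | full r (neg ω) ∈ E} = PT (σ p) r E := by
  have h1 := PT_neg (p := p) (r := !r) h
  rw [Bool.not_not] at h1
  rw [← h1, PT]
  congr 1
  ext ω
  simp only [Set.mem_ofPred_eq]
  rw [neg_full, Bool.not_not]

theorem Pr_not_hcross (hab : a < b) (hcd : c ≤ d) :
    Pr p {ω | ¬ HCross ω a b c d} = PT (σ p) true {η | VC η a b c d} := by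
  rw [← raw_neg (localOn_VC a b c d) true, Pr]
  congr 1
  ext ω
  exact not_hcross_iff hab hcd

theorem Pr_not_vcross (hab : a ≤ b) (hcd : c < d) :
    Pr p {ω | ¬ VCross ω a b c d} = PT (σ p) true {η | HC η a b c d} := by
  rw [← raw_neg (localOn_HC a b c d) true, Pr]
  congr 1
  ext ω
  exact not_vcross_iff hab hcd

/-! ### The box-crossing regime -/

/-- The box-crossing regime in terms of crossings of the centred lattice. -/
theorem rswreg_iff {c : ℝ} {n : ℕ} : RSWreg c n q ↔ ∀ m : ℕ, 1 ≤ m → m ≤ n →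
    c ≤ PT q false {η | HC η 0 (4 * m) 0 m} ∧ c ≤ PT (σ q) true {η | HC η 0 (4 * m) 0 m} := by
  constructor
  · intro h m hm hn
    have h1 := h m hm hn
    rw [Pr_hcross (by omega), Pr_not_vcross (by omega) (by omega)] at h1
    exact h1
  · intro h m hm hn
    have h1 := h m hm hn
    rw [Pr_hcross (by omega), Pr_not_vcross (by omega) (by omega)]
    exact h1

/-- The box-crossing regime at the critical point. -/
theorem rswreg_pc : ∃ c > (0 : ℝ), ∀ n : ℕ, RSWreg c n pc := by
  obtain ⟨c1, hc1, h1⟩ := bxp_pc.1 4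
  obtain ⟨c2, hc2, h2⟩ := bxp_pc.2 4
  refine ⟨min c1 c2, lt_min hc1 hc2, fun n => rswreg_iff.2 fun m hm _ => ?_⟩
  exact ⟨(min_le_left _ _).trans (h1 m hm), (min_le_right _ _).trans (h2 m hm)⟩

/-! ### Arms -/

theorem sv_mem_sph {x y : ℤ} {n : ℕ} {v : Vert} :
    sv v ∈ sph x y n ↔ v ∈ sphere (x, y) n := by
  obtain ⟨a, b⟩ := v
  simp only [sph, sphere, ball, Set.mem_ofPred_eq, sv_mem_TR]
  simp only [sv, true_and]

theorem mem_ball_iff {x y : ℤ} {n : ℕ} {v : Vert} :
    sv v ∈ TR (x - n) (x + n) (y - n) (y + n) ↔ v ∈ ball (x, y) n := by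
  rw [sv_mem_TR]; rfl

theorem armBox_iff {x y : ℤ} {k n : ℕ} (hkn : k < n) :
    sit ω ∈ ArmBox (x, y) k n ↔ full false ω ∈ AB x y k n := by
  constructor
  · rintro ⟨w, hw, u, hu, h⟩
    have hne : w ≠ u := by
      rintro rfl
      have h1 := hu.2
      simp only [ball, rect, Set.mem_ofPred_eq] at hw
      omega
    refine ⟨sv w, mem_ball_iff.2 hw, sv u, sv_mem_sph.2 hu, ?_⟩
    exact tconn_of_conn (fun v hv => mem_ball_iff.2 hv) h (open_of_conn h hne) false
  · rintro ⟨w, hw, u, hu, h⟩
    have e : w = sv (w.1, w.2.1) := by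
      obtain ⟨a, b, t⟩ := w
      cases t
      · rfl
      · have := h.open_left
        simp [full] at this
    rw [e] at hw h
    have h1 := conn_of_tconn (S := ball (x, y) n) (fun v hv => mem_ball_iff.1 hv) h
    have hu' : u.2.2 = false := hu.2.1
    have e2 : u = sv (u.1, u.2.1) := h1.1
    rw [e2] at hu
    exact ⟨_, mem_ball_iff.1 hw, _, sv_mem_sph.1 hu, h1.2⟩

theorem armBox_zero {v : Vert} {n : ℕ} : ArmBox v 0 n = Arm v n := by
  ext ω
  constructor
  · rintro ⟨w, hw, u, hu, h⟩
    have : w = v := by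
      simp only [ball, rect, Set.mem_ofPred_eq, Nat.cast_zero] at hw
      ext <;> omega
    subst this
    exact ⟨u, hu, h⟩
  · rintro ⟨u, hu, h⟩
    refine ⟨v, ?_, u, hu, h⟩
    simp [ball, rect]

/-- Annulus probabilities. -/
theorem Pr_armBox_eq_ab {k n : ℕ} (hkn : k < n) : Pr p (ArmBox 0 k n) = ab p false k n := by
  rw [Pr, ab, PT]
  congr 1
  ext ω
  exact armBox_iff (x := 0) (y := 0) hkn

/-- One-arm probabilities. -/
theorem arm_eq_ab {n : ℕ} (hn : 1 ≤ n) : SK.arm p n = ab p false 0 n := by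
  rw [SK.arm, ← armBox_zero, Pr_armBox_eq_ab (by omega)]

end Pool.Agent.H83.SK.Dict
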