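import Pool.Agent.H38.SK.Dict
import Pool.Agent.H83.Site.Circ
import Pool.Agent.H89.Perc.TorusDefs
import Pool.Agent.H92.SN.Defs

/-!
# Winding paths of site percolation on the torus
-/

set_option autoImplicit false

open MeasureTheory ProbabilityTheory unitInterval

namespace Pool.Agent.H83.SK.WG

open Pool.Agent.H89.Perc Pool.Agent.H83.Site Pool.Agent.H83.SK.Dict
open Pool.Agent.H92.SN (WindS tSites)

theorem mem_tSites {N : ℕ} {e : Edge} :
    e ∈ tSites N ↔ e.2.2 = false ∧ 0 ≤ e.1 ∧ e.1 < N ∧ 0 ≤ e.2.1 ∧ e.2.1 < N := by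
  simp only [tSites, Finset.mem_product, Finset.mem_Ico, Finset.mem_singleton]
  tauto

theorem sit_per_congr {N : ℕ} (hN : 1 ≤ N) {ω ω' : Config} (h : ∀ e ∈ tSites N, ω e = ω' e) :
    sit (per N ω) = sit (per N ω') := by
  have hN' : (0 : ℤ) < N := by exact_mod_cast hN
  have key : ∀ v : Vert, per N ω (sv v) = per N ω' (sv v) := by
    intro v
    refine h _ (mem_tSites.2 ⟨rfl, ?_, ?_, ?_, ?_⟩)
    · exact Int.emod_nonneg _ hN'.ne'
    · exact Int.emod_lt_of_pos _ hN'
    · exact Int.emod_nonneg _ hN'.ne'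
    · exact Int.emod_lt_of_pos _ hN'
  funext e
  simp only [sit, key]

theorem localOn_windS {N : ℕ} (hN : 1 ≤ N) : LocalOn (tSites N) (WindS N) := by
  intro ω ω' h hω
  simp only [WindS, Set.mem_ofPred_eq] at hω ⊢
  rwa [← sit_per_congr hN h]

theorem incr_windS (N : ℕ) : Incr (WindS N) := by
  rintro ω ω' h ⟨u, a, b, ha, hc⟩
  refine ⟨u, a, b, ha, hc.mono le_rfl ?_⟩
  exact sit_mono fun e he => h _ he

theorem windS_iff {N : ℕ} (hN : 1 ≤ N) {ω : Config} : ω ∈ WindS N ↔
    ∃ (u : TV) (a b : ℤ), a ≠ 0 ∧ TConn (full false (per N ω)) Set.univ u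
      (shf (a * N) (b * N) u) := by
  have hN' : (0 : ℤ) < N := by exact_mod_cast hN
  constructor
  · rintro ⟨u, a, b, ha, hc⟩
    refine ⟨sv u, a, b, ha, ?_⟩
    refine tconn_of_conn (T := Set.univ) (fun _ _ => trivial) hc (open_of_conn hc ?_) false
    intro h
    have h1 := congrArg Prod.fst h
    simp only at h1
    have h2 : a * N = 0 := by omega
    rcases mul_eq_zero.1 h2 with h3 | h3
    · exact ha h3
    · omega
  · rintro ⟨u, a, b, ha, hc⟩
    have e : u = sv (u.1, u.2.1) := by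
      obtain ⟨x, y, t⟩ := u
      cases t
      · rfl
      · have := hc.open_left
        simp [full] at this
    rw [e] at hc
    have h1 := conn_of_tconn (S := Set.univ) (fun _ _ => trivial) hc
    exact ⟨(u.1, u.2.1), a, b, ha, h1.2⟩

/-! ### Periodic configurations -/

theorem per_shf (N : ℕ) (ω : Config) (i j : ℤ) (v : TV) :
    per N ω (shf (i * N) (j * N) v) = per N ω v := by
  simp only [per, shf]
  congr 2
  · exact Int.add_mul_emod_self_right _ _ _
  · congr 1
    exact Int.add_mul_emod_self_right _ _ _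

theorem full_per_shf (r : Bool) (N : ℕ) (ω : Config) (i j : ℤ) (v : TV) :
    full r (per N ω) (shf (i * N) (j * N) v) = full r (per N ω) v := by
  have h := per_shf N ω i j v
  simp only [full]
  rw [h]
  rfl

theorem tconn_shift {η : Config} {x y : ℤ} (hη : ∀ v, η (shf x y v) = η v) {S T : Set TV}
    (hST : ∀ v ∈ S, shf x y v ∈ T) {u v : TV} (h : TConn η S u v) :
    TConn η T (shf x y u) (shf x y v) := by
  refine h.map (shf x y) hST (fun z _ hz => by rw [hη]; exact hz) ?_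
  intro a b _ _ hab
  exact Or.inl (hab.shf x y)

/-- Repeating a periodic path `K` times. -/
theorem tconn_repeat {η : Config} {x y : ℤ} (hη : ∀ v, η (shf x y v) = η v) {S : Set TV}
    (hS : ∀ v ∈ S, shf x y v ∈ S) {u : TV} (hc : TConn η S u (shf x y u)) (K : ℕ) :
    TConn η S u (shf (K * x) (K * y) u) := by
  induction K with
  | zero =>
    have : shf ((0 : ℕ) * x) ((0 : ℕ) * y) u = u := by
      obtain ⟨a, b, t⟩ := u
      simp [shf]
    rw [this]
    exact TConn.refl hc.mem_left hc.open_left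
  | succ K ih =>
    have h1 := tconn_shift hη hS ih
    have h2 := hc.trans h1
    have : shf x y (shf (K * x) (K * y) u) = shf ((K + 1 : ℕ) * x) ((K + 1 : ℕ) * y) u := by
      obtain ⟨a, b, t⟩ := u
      simp only [shf, Prod.mk.injEq]
      refine ⟨?_, ?_, trivial⟩ <;> push_cast <;> ring
    rwa [this] at h2

theorem shf_neg_eq (η : Config) {x y : ℤ} (hη : ∀ v, η (shf x y v) = η v) (v : TV) :
    η (shf (-x) (-y) v) = η v := by
  have := hη (shf (-x) (-y) v)
  rw [shf_shf] at this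
  exact this.symm

/-- Repeating a periodic path in both directions. -/
theorem tconn_repeat2 {η : Config} {x y : ℤ} (hη : ∀ v, η (shf x y v) = η v) {S : Set TV}
    (hS : ∀ v ∈ S, shf x y v ∈ S) (hS' : ∀ v ∈ S, shf (-x) (-y) v ∈ S) {u : TV}
    (hc : TConn η S u (shf x y u)) (K : ℕ) :
    TConn η S (shf (-(K * x)) (-(K * y)) u) (shf (K * x) (K * y) u) := by
  have h1 := tconn_repeat hη hS hc K
  have h2 : TConn η S u (shf (-x) (-y) u) := by
    have h3 := (tconn_shift (shf_neg_eq η hη) hS' hc).symm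
    rwa [shf_shf'] at h3
  have h3 := tconn_repeat (shf_neg_eq η hη) hS' h2 K
  have e1 : (K : ℤ) * -x = -(K * x) := by ring
  have e2 : (K : ℤ) * -y = -(K * y) := by ring
  rw [e1, e2] at h3
  exact h3.symm.trans h1

/-- A path is contained in a square. -/
theorem tconn_bounded {η : Config} {S : Set TV} {u v : TV} (hc : TConn η S u v) :
    ∃ M : ℕ, TConn η (S ∩ TR (-M) M (-M) M) u v := by
  have key : ∀ v : TV, ∃ M : ℕ, v ∈ TR (-M) M (-M) M := by
    intro v
    refine ⟨(|fx v| + |fy v|).toNat, ?_⟩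
    rw [mem_TR]
    have h1 := abs_nonneg (fx v)
    have h2 := abs_nonneg (fy v)
    have h3 := le_abs_self (fx v)
    have h4 := neg_abs_le (fx v)
    have h5 := le_abs_self (fy v)
    have h6 := neg_abs_le (fy v)
    omega
  have mono : ∀ {M M' : ℕ}, M ≤ M' → (TR (-M) M (-M) M : Set TV) ⊆ TR (-M') M' (-M') M' :=
    fun h => TR_mono (by omega) (by omega) (by omega) (by omega)
  refine hc.induction_right (P := fun v => ∃ M : ℕ, TConn η (S ∩ TR (-M) M (-M) M) u v) ?_ ?_
  · obtain ⟨M, hM⟩ := key u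
    exact ⟨M, TConn.refl ⟨hc.mem_left, hM⟩ hc.open_left⟩
  · rintro a b _ hab ⟨M, hM⟩
    obtain ⟨M', hM'⟩ := key b
    refine ⟨max M M', ?_⟩
    have h1 : TConn η (S ∩ TR (-(max M M' : ℕ)) (max M M' : ℕ) (-(max M M' : ℕ))
        (max M M' : ℕ)) u a :=
      hM.mono_set (Set.inter_subset_inter le_rfl (mono (le_max_left _ _)))
    exact h1.tail ⟨h1.mem_right, ⟨hab.2.1, mono (le_max_right _ _) hM'⟩, hab.2.2⟩

private theorem excl_pos {N : ℕ} (hN : 1 ≤ N) {η : Config}
    (h01 : ∀ v, η (shf 0 N v) = η v) {u : TV} {a b : ℤ}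
    (ha : 0 < a) (hab : ∀ v, η (shf (a * N) (b * N) v) = η v)
    (h : TConn η Set.univ u (shf (a * N) (b * N) u)) (w : TV) :
    ¬ TConn (neg η) Set.univ w (shf 0 N w) := by
  intro hd
  have hN' : (1 : ℤ) ≤ N := by exact_mod_cast hN
  obtain ⟨L, hL⟩ := tconn_bounded hd
  set S : Set TV := {v | 2 * (-(L : ℤ)) ≤ fx v ∧ fx v ≤ 2 * L} with hS
  have hd1 : TConn (neg η) S w (shf 0 N w) := hL.mono_set (by
    rintro x ⟨-, hx⟩
    rw [mem_TR] at hx
    exact ⟨hx.1, hx.2.1⟩)
  have hinv : ∀ v, neg η (shf 0 N v) = neg η v := fun v => by simp only [neg, h01]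
  have hdK := tconn_repeat2 hinv (S := S) (by
    intro v hv
    simp only [hS, Set.mem_ofPred_eq, fx_shf] at hv ⊢
    omega) (by
    intro v hv
    simp only [hS, Set.mem_ofPred_eq, fx_shf] at hv ⊢
    omega) hd1
  have hpK := tconn_repeat2 hab (S := Set.univ) (fun _ _ => trivial) (fun _ _ => trivial) h
  obtain ⟨K, hK1, hK2⟩ : ∃ K : ℕ, fx u - 2 * (K * (a * N)) ≤ 2 * (-(L : ℤ)) ∧
      2 * (L : ℤ) ≤ fx u + 2 * (K * (a * N)) := by
    refine ⟨(|fx u| + L + 1).toNat, ?_⟩
    have h1 := abs_nonneg (fx u)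
    have h2 := le_abs_self (fx u)
    have h3 := neg_abs_le (fx u)
    have h4 : (((|fx u| + L + 1).toNat : ℕ) : ℤ) = |fx u| + L + 1 := by
      apply Int.toNat_of_nonneg
      omega
    rw [h4]
    have h5 : 1 ≤ a * N := by nlinarith
    have h6 : |fx u| + L + 1 ≤ (|fx u| + L + 1) * (a * N) := by nlinarith
    constructor <;> omega
  obtain ⟨M, hM⟩ := tconn_bounded (hpK K)
  obtain ⟨y, y', hc, -, -⟩ := hM.cross_x (a := -(L : ℤ)) (b := L)
    (by rw [fx_shf]; omega) (by rw [fx_shf]; omega) (by omega)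
  have hH : HC η (-(L : ℤ)) L (-M) M := by
    refine ⟨y, y', hc.mono_set ?_⟩
    rintro x ⟨⟨-, hx⟩, hx'⟩
    rw [mem_TR] at hx ⊢
    exact ⟨hx'.1, hx'.2, hx.2.2⟩
  obtain ⟨K', hK1', hK2'⟩ : ∃ K' : ℕ, fy w - 2 * (K' * (N : ℤ)) ≤ 2 * (-(M : ℤ)) ∧
      2 * (M : ℤ) ≤ fy w + 2 * (K' * N) := by
    refine ⟨(|fy w| + M + 1).toNat, ?_⟩
    have h1 := abs_nonneg (fy w)
    have h2 := le_abs_self (fy w)
    have h3 := neg_abs_le (fy w)
    have h4 : (((|fy w| + M + 1).toNat : ℕ) : ℤ) = |fy w| + M + 1 := by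
      apply Int.toNat_of_nonneg
      omega
    rw [h4]
    have h6 : |fy w| + M + 1 ≤ (|fy w| + M + 1) * (N : ℤ) := by nlinarith
    constructor <;> omega
  obtain ⟨z, z', hc', -, -⟩ := (hdK K').cross_y (c := -(M : ℤ)) (d := M)
    (by rw [fy_shf]; omega) (by rw [fy_shf]; omega) (by omega)
  have hV : VC (neg η) (-(L : ℤ)) L (-M) M := by
    refine ⟨z, z', hc'.mono_set ?_⟩
    rintro x ⟨hx, hx'⟩
    rw [mem_TR]
    exact ⟨hx.1, hx.2, hx'⟩
  exact not_hc_and_vc hH hV

/-- An open horizontal winding path excludes a closed vertical winding path. -/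
theorem wind_excl {N : ℕ} (hN : 1 ≤ N) {η : Config}
    (hη : ∀ (i j : ℤ) (v : TV), η (shf (i * N) (j * N) v) = η v) {u : TV} {a b : ℤ}
    (ha : a ≠ 0) (h : TConn η Set.univ u (shf (a * N) (b * N) u)) (w : TV) :
    ¬ TConn (neg η) Set.univ w (shf 0 N w) := by
  have h01 : ∀ v, η (shf 0 N v) = η v := fun v => by simpa using hη 0 1 v
  rcases lt_or_gt_of_ne ha with ha | ha
  · refine excl_pos hN h01 (u := shf (a * N) (b * N) u) (a := -a) (b := -b) (by omega)
      (hη (-a) (-b)) ?_ w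
    have h1 := h.symm
    have e : shf (-a * N) (-b * N) (shf (a * N) (b * N) u) = u := by
      have e1 : -a * (N : ℤ) = -(a * N) := by ring
      have e2 : -b * (N : ℤ) = -(b * N) := by ring
      rw [e1, e2, shf_shf']
    rwa [e]
  · exact excl_pos hN h01 ha (hη a b) h w

/-! ### Winding paths from crossings -/

/-- Four crossings of a configuration with horizontal period `N` make a horizontal winding. -/
theorem wind_of_crossings {N h m : ℤ} {η : Config} (hper : ∀ v, η (shf N 0 v) = η v)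
    (hm : 0 ≤ m) (hh : 0 ≤ h) (hhN : h ≤ N) (h1 : HC η 0 (h + m) 0 m)
    (h2 : HC η h (N + m) 0 m) (h3 : VC η h (h + m) 0 m) (h4 : VC η 0 m 0 m) :
    ∃ w : TV, TConn η Set.univ w (shf N 0 w) := by
  obtain ⟨y1, y1', c1⟩ := h1
  obtain ⟨y2, y2', c2⟩ := h2
  obtain ⟨x1, x1', d1⟩ := h3
  obtain ⟨x2, x2', d2⟩ := h4
  have d2' : TConn η (TR N (N + m) 0 m) (x2 + N, 0, false) (x2' + N, m, false) := by
    have h5 := tconn_shift hper (T := TR N (N + m) 0 m) (by
      intro v hv
      rw [mem_TR] at hv ⊢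
      rw [fx_shf, fy_shf]
      omega) d2
    simpa [shf] using h5
  have k1 := (circ_hv (le_refl 0) hm (by omega) le_rfl hm le_rfl c1 d2).mono_set
    (Set.subset_univ _)
  have k2 := (circ_hv hh (by omega) le_rfl le_rfl hm le_rfl c1 d1).mono_set (Set.subset_univ _)
  have k3 := (circ_hv (le_refl h) (by omega) (by omega) le_rfl hm le_rfl c2 d1).mono_set
    (Set.subset_univ _)
  have k4 := (circ_hv hhN (by omega) le_rfl le_rfl hm le_rfl c2 d2').mono_set
    (Set.subset_univ _)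
  refine ⟨(x2, 0, false), ?_⟩
  have e : shf N 0 (x2, 0, false) = (x2 + N, 0, false) := by simp [shf]
  rw [e]
  exact ((k1.symm.trans k2).trans k3.symm).trans k4

theorem VC_swp {η : Config} {a b c d : ℤ} :
    VC (fun v => η (swp v)) a b c d ↔ HC η c d a b := by
  have h := HC_swp (η := fun v => η (swp v)) (a := c) (b := d) (c := a) (d := b)
  simp only [swp_swp] at h
  exact h.symm

/-- Four crossings of a configuration with vertical period `N` make a vertical winding. -/
theorem wind_of_crossings' {N h m : ℤ} {η : Config} (hper : ∀ v, η (shf 0 N v) = η v)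
    (hm : 0 ≤ m) (hh : 0 ≤ h) (hhN : h ≤ N) (h1 : VC η 0 m 0 (h + m))
    (h2 : VC η 0 m h (N + m)) (h3 : HC η 0 m h (h + m)) (h4 : HC η 0 m 0 m) :
    ∃ w : TV, TConn η Set.univ w (shf 0 N w) := by
  obtain ⟨w, hw⟩ := wind_of_crossings (N := N) (h := h) (m := m) (η := fun v => η (swp v))
    (fun v => by
      have := hper (swp v)
      simpa [shf, swp] using this) hm hh hhN (HC_swp.2 h1) (HC_swp.2 h2)
    (VC_swp.2 h3) (VC_swp.2 h4)
  refine ⟨swp w, ?_⟩
  have h5 := hw.map (η' := η) (T := Set.univ) swp (fun _ _ => trivial) (fun _ _ h => h)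
    (fun a b _ _ hab => Or.inl hab.swp)
  have e : swp (shf N 0 w) = shf 0 N (swp w) := by
    obtain ⟨x, y, t⟩ := w
    simp [shf, swp]
  rwa [e] at h5

end Pool.Agent.H83.SK.WG
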